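import Mathlib

/-!
# Joins of simplicial complexes with polygons, and the gamma polynomial
-/

set_option autoImplicit false

namespace Pool.Agent.Q222.GJ

open Finset Polynomial Classical

variable {V W : Type}

/-- the join of two complexes -/
noncomputable def join (S : Finset (Finset V)) (T : Finset (Finset W)) : Finset (Finset (V ⊕ W)) :=
  (S ×ˢ T).image fun p => p.1.disjSum p.2

/-- the polygon (cycle) with `c + 4` vertices: the faces are the empty set, the vertices and the edges `{i, i + 1}` -/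
noncomputable def polygon (c : ℕ) : Finset (Finset (ZMod (c + 4))) :=
  insert ∅ ((univ.image fun i => {i}) ∪ univ.image fun i => {i, i + 1})

/-- `∑_A (t - 1)^(d - |A|)`, the sum over the faces `A` of `S` (with the empty face): the `h`-polynomial of a
`(d - 1)`-dimensional complex, if it is symmetric -/
noncomputable def hEval (d : ℕ) (S : Finset (Finset V)) (t : ℝ) : ℝ := ∑ A ∈ S, (t - 1) ^ (d - A.card)

/-- `g` is the gamma polynomial `∑ γ_i t^i` of the `(d - 1)`-dimensional complex `S`: its degree is at most `d / 2` and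
`h(t) = (1 + t)^d g(t / (1 + t)^2)` -/
def IsGamma (d : ℕ) (S : Finset (Finset V)) (g : ℤ[X]) : Prop :=
  2 * g.natDegree ≤ d ∧ ∀ t : ℝ, t ≠ -1 → hEval d S t = (1 + t) ^ d * aeval (t / (1 + t) ^ 2) g

theorem disjSum_inj : Function.Injective fun p : Finset V × Finset W => p.1.disjSum p.2 := by
  rintro ⟨A, B⟩ ⟨A', B'⟩ h
  simp only at h
  have h1 : A = A' := by
    ext x
    rw [← Finset.inl_mem_disjSum (t := B), h, Finset.inl_mem_disjSum]
  have h2 : B = B' := by
    ext x
    rw [← Finset.inr_mem_disjSum (s := A), h, Finset.inr_mem_disjSum]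
  rw [h1, h2]

theorem hEval_join {d e : ℕ} {S : Finset (Finset V)} {T : Finset (Finset W)} (hS : ∀ A ∈ S, A.card ≤ d)
    (hT : ∀ B ∈ T, B.card ≤ e) (t : ℝ) : hEval (d + e) (join S T) t = hEval d S t * hEval e T t := by
  unfold hEval join
  rw [sum_image fun x _ y _ h => disjSum_inj h, Finset.sum_mul_sum, ← sum_product']
  refine sum_congr rfl fun p hp => ?_
  rw [mem_product] at hp
  have h1 := hS _ hp.1
  have h2 := hT _ hp.2
  rw [Finset.card_disjSum, ← pow_add]
  congr 1
  omega

theorem join_card_le {d e : ℕ} {S : Finset (Finset V)} {T : Finset (Finset W)} (hS : ∀ A ∈ S, A.card ≤ d)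
    (hT : ∀ B ∈ T, B.card ≤ e) : ∀ A ∈ join S T, A.card ≤ d + e := by
  intro A hA
  unfold join at hA
  rw [mem_image] at hA
  obtain ⟨p, hp, rfl⟩ := hA
  rw [mem_product] at hp
  rw [Finset.card_disjSum]
  exact add_le_add (hS _ hp.1) (hT _ hp.2)

theorem two_ne (c : ℕ) : (2 : ZMod (c + 4)) ≠ 0 := by
  intro h
  have h1 : ((2 : ℕ) : ZMod (c + 4)) = 0 := by exact_mod_cast h
  rw [ZMod.natCast_eq_zero_iff] at h1
  have := Nat.le_of_dvd (by norm_num) h1
  omega

theorem one_ne (c : ℕ) : (1 : ZMod (c + 4)) ≠ 0 := by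
  intro h
  have h1 : ((1 : ℕ) : ZMod (c + 4)) = 0 := by exact_mod_cast h
  rw [ZMod.natCast_eq_zero_iff] at h1
  have := Nat.le_of_dvd (by norm_num) h1
  omega

theorem edge_card (c : ℕ) (i : ZMod (c + 4)) : ({i, i + 1} : Finset (ZMod (c + 4))).card = 2 := by
  rw [card_pair]
  intro h
  have : (1 : ZMod (c + 4)) = 0 := by
    have h2 : i + 0 = i + 1 := by rw [add_zero]; exact h
    exact (add_left_cancel h2).symm
  exact one_ne c this

theorem edge_inj (c : ℕ) : Function.Injective fun i : ZMod (c + 4) => ({i, i + 1} : Finset (ZMod (c + 4))) := by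
  intro i j h
  simp only at h
  have hi : i ∈ ({j, j + 1} : Finset (ZMod (c + 4))) := by
    rw [← h]
    exact mem_insert_self _ _
  have hj : j ∈ ({i, i + 1} : Finset (ZMod (c + 4))) := by
    rw [h]
    exact mem_insert_self _ _
  rw [mem_insert, mem_singleton] at hi hj
  rcases hi with hi | hi
  · exact hi
  · rcases hj with hj | hj
    · exact hj.symm
    · exfalso
      have : (2 : ZMod (c + 4)) = 0 := by
        have h2 : i = i + 2 := by
          calc i = j + 1 := hi
            _ = i + 1 + 1 := by rw [← hj]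
            _ = i + 2 := by ring
        have h3 : i + 0 = i + 2 := by rw [add_zero]; exact h2
        exact (add_left_cancel h3).symm
      exact two_ne c this

theorem polygon_card_le (c : ℕ) : ∀ A ∈ polygon c, A.card ≤ 2 := by
  intro A hA
  unfold polygon at hA
  rw [mem_insert, mem_union, mem_image, mem_image] at hA
  rcases hA with rfl | ⟨i, -, rfl⟩ | ⟨i, -, rfl⟩
  · simp
  · simp
  · rw [edge_card]

theorem hEval_polygon (c : ℕ) (t : ℝ) : hEval 2 (polygon c) t = (1 + t) ^ 2 + c * t := by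
  unfold hEval polygon
  have h0 : (∅ : Finset (ZMod (c + 4))) ∉ (univ.image fun i : ZMod (c + 4) => ({i} : Finset (ZMod (c + 4)))) ∪
      univ.image fun i : ZMod (c + 4) => ({i, i + 1} : Finset (ZMod (c + 4))) := by
    intro h
    rw [mem_union, mem_image, mem_image] at h
    rcases h with ⟨i, -, h⟩ | ⟨i, -, h⟩
    · have := congrArg Finset.card h
      simp at this
    · have := congrArg Finset.card h
      rw [edge_card] at this
      simp at this
  have hd : Disjoint (univ.image fun i : ZMod (c + 4) => ({i} : Finset (ZMod (c + 4))))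
      (univ.image fun i : ZMod (c + 4) => ({i, i + 1} : Finset (ZMod (c + 4)))) := by
    rw [disjoint_left]
    intro A hA hA'
    rw [mem_image] at hA hA'
    obtain ⟨i, -, rfl⟩ := hA
    obtain ⟨j, -, h⟩ := hA'
    have := congrArg Finset.card h
    rw [edge_card, card_singleton] at this
    omega
  rw [sum_insert h0, sum_union hd, sum_image fun x _ y _ h => singleton_injective h,
    sum_image fun x _ y _ h => edge_inj c h]
  simp only [card_empty, card_singleton, edge_card, sum_const, card_univ, ZMod.card, nsmul_eq_mul]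
  push_cast
  norm_num
  ring

/-- the join with a polygon -/
theorem IsGamma.polygon {d : ℕ} {S : Finset (Finset V)} {g : ℤ[X]} (h : IsGamma d S g)
    (hS : ∀ A ∈ S, A.card ≤ d) (c : ℕ) : IsGamma (d + 2) (join S (polygon c)) (g * (1 + C (c : ℤ) * X)) := by
  refine ⟨?_, fun t ht => ?_⟩
  · have h1 : (g * (1 + C (c : ℤ) * X)).natDegree ≤ g.natDegree + 1 := by
      refine natDegree_mul_le.trans ?_
      have h2 : (1 + C (c : ℤ) * X : ℤ[X]).natDegree ≤ 1 := by
        refine (natDegree_add_le _ _).trans ?_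
        rw [natDegree_one]
        exact max_le (by norm_num) ((natDegree_C_mul_le _ _).trans natDegree_X_le)
      omega
    have := h.1
    omega
  · rw [hEval_join hS (polygon_card_le c), h.2 t ht, hEval_polygon]
    have ht' : (1 + t : ℝ) ≠ 0 := fun h' => ht (by linarith)
    simp only [map_mul, map_add, map_one, aeval_X, map_natCast]
    field_simp
    ring

/-- `r` joins -/
theorem iterate (𝒮 : ∀ (V : Type) [Fintype V], Finset (Finset V) → ℕ → Prop)
    (hface : ∀ (V : Type) [Fintype V] (S : Finset (Finset V)) (d : ℕ), 𝒮 V S d → ∀ A ∈ S, A.card ≤ d)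
    (c : ℕ) (hjoin : ∀ (V : Type) [Fintype V] (S : Finset (Finset V)) (d : ℕ), 𝒮 V S d →
      𝒮 (V ⊕ ZMod (c + 4)) (join S (Pool.Agent.Q222.GJ.polygon c)) (d + 2))
    {V : Type} [Fintype V] {S : Finset (Finset V)} {d : ℕ} (hS : 𝒮 V S d) {g : ℤ[X]} (hg : IsGamma d S g) (r : ℕ) :
    ∃ (V' : Type) (_ : Fintype V') (S' : Finset (Finset V')), 𝒮 V' S' (d + 2 * r) ∧
      Fintype.card V' = Fintype.card V + r * (c + 4) ∧ IsGamma (d + 2 * r) S' (g * (1 + C (c : ℤ) * X) ^ r) := by
  induction r with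
  | zero => exact ⟨V, _, S, by simpa using hS, by simp, by simpa using hg⟩
  | succ r ih =>
    obtain ⟨V', _, S', h1, h2, h3⟩ := ih
    refine ⟨V' ⊕ ZMod (c + 4), inferInstance, join S' (Pool.Agent.Q222.GJ.polygon c), ?_, ?_, ?_⟩
    · have e1 : d + 2 * (r + 1) = d + 2 * r + 2 := by ring
      rw [e1]
      exact hjoin V' S' _ h1
    · rw [Fintype.card_sum, h2, ZMod.card]
      ring
    · have := h3.polygon (hface V' S' _ h1) c
      rw [mul_assoc, ← pow_succ] at this
      have e1 : d + 2 * (r + 1) = d + 2 * r + 2 := by ring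
      rw [e1]
      exact this

/-- coefficients of `g (1 + c X)^r` -/
theorem coeff_bound {g : ℤ[X]} {c : ℕ} {M : ℤ} (hM : ∀ k, |g.coeff k| ≤ M) (r k : ℕ) :
    |(g * (1 + C (c : ℤ) * X) ^ r).coeff k| ≤ (1 + c) ^ r * M := by
  induction r generalizing k with
  | zero => simpa using hM k
  | succ r ih =>
    have h1 : g * (1 + C (c : ℤ) * X) ^ (r + 1) = g * (1 + C (c : ℤ) * X) ^ r +
        C (c : ℤ) * (g * (1 + C (c : ℤ) * X) ^ r * X) := by ring
    rw [h1, coeff_add, coeff_C_mul]
    have hM0 : 0 ≤ M := (abs_nonneg _).trans (hM 0)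
    have hc : (0 : ℤ) ≤ c := Int.natCast_nonneg _
    rcases k with _ | k
    · rw [coeff_mul_X_zero, mul_zero, add_zero]
      refine (ih 0).trans ?_
      rw [pow_succ, mul_assoc]
      gcongr
      nlinarith
    · rw [coeff_mul_X]
      calc |(g * (1 + C (c : ℤ) * X) ^ r).coeff (k + 1) + (c : ℤ) * (g * (1 + C (c : ℤ) * X) ^ r).coeff k|
          ≤ |(g * (1 + C (c : ℤ) * X) ^ r).coeff (k + 1)| + |(c : ℤ) * (g * (1 + C (c : ℤ) * X) ^ r).coeff k| :=
            abs_add_le _ _
        _ ≤ (1 + c) ^ r * M + c * ((1 + c) ^ r * M) := by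
            rw [abs_mul, abs_of_nonneg hc]
            gcongr
            · exact ih _
            · exact ih _
        _ = (1 + c) ^ (r + 1) * M := by ring

theorem coeff_top {g : ℤ[X]} {c : ℕ} {M : ℤ} (hM : ∀ k, |g.coeff k| ≤ M) (i r : ℕ) :
    (g * (1 + C (c : ℤ) * X) ^ r).coeff (i + r) ≤ c ^ r * g.coeff i + r * ((1 + c) ^ (r - 1) * M) := by
  induction r with
  | zero => simp
  | succ r ih =>
    have h1 : g * (1 + C (c : ℤ) * X) ^ (r + 1) = g * (1 + C (c : ℤ) * X) ^ r +
        C (c : ℤ) * (g * (1 + C (c : ℤ) * X) ^ r * X) := by ring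
    rw [h1, coeff_add, coeff_C_mul, ← add_assoc, coeff_mul_X]
    have hM0 : 0 ≤ M := (abs_nonneg _).trans (hM 0)
    have hc : (0 : ℤ) ≤ c := Int.natCast_nonneg _
    have h2 := (abs_le.1 (coeff_bound hM r (i + r + 1) (c := c))).2
    have h3 : (c : ℤ) * (g * (1 + C (c : ℤ) * X) ^ r).coeff (i + r) ≤
        c * (c ^ r * g.coeff i + r * ((1 + c) ^ (r - 1) * M)) := mul_le_mul_of_nonneg_left ih hc
    have h4 : (c : ℤ) * (r * ((1 + c) ^ (r - 1) * M)) ≤ r * ((1 + c) ^ r * M) := by
      rcases r with _ | r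
      · simp
      · rw [Nat.add_sub_cancel]
        have : (c : ℤ) * (((r + 1 : ℕ) : ℤ) * ((1 + c) ^ r * M)) = ((r + 1 : ℕ) : ℤ) * (c * ((1 + c) ^ r * M)) := by ring
        rw [this]
        have h5 : (0 : ℤ) ≤ (1 + c) ^ r * M := by positivity
        have h6 : (c : ℤ) * ((1 + c) ^ r * M) ≤ (1 + c) ^ (r + 1) * M := by
          have : ((1 : ℤ) + c) ^ (r + 1) * M = (1 + c) ^ r * M + c * ((1 + c) ^ r * M) := by ring
          rw [this]
          linarith
        exact mul_le_mul_of_nonneg_left h6 (Int.natCast_nonneg _)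
    rw [Nat.add_sub_cancel]
    push_cast
    have e1 : (c : ℤ) * (c ^ r * g.coeff i + r * ((1 + c) ^ (r - 1) * M)) =
        c ^ (r + 1) * g.coeff i + c * (r * ((1 + c) ^ (r - 1) * M)) := by ring
    rw [e1] at h3
    have e2 : ((r : ℤ) + 1) * ((1 + c) ^ r * M) = (1 + c) ^ r * M + r * ((1 + c) ^ r * M) := by ring
    rw [e2]
    linarith

end Pool.Agent.Q222.GJ
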